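import Pool.Agent.H16.VA.Targets

/-!
# Zhu's algebra of a model (module C2)
-/

set_option autoImplicit false

open Finset MvPolynomial

namespace Pool.Agent.H39.VA

open Pool.Agent.H16.VA

/-! ## the Poisson structure of two commuting derivations -/

section poisson

variable {R : Type*} [CommRing R] [Algebra ℂ R]

/-- the Poisson structure of two commuting derivations -/
noncomputable def poisson (D1 D2 : Derivation ℂ R R) (h : ∀ a, D2 (D1 a) = D1 (D2 a)) :
    PoissonStr R where
  br := LinearMap.mk₂ ℂ (fun a b => D1 a * D2 b - D2 a * D1 b)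
    (by intro a b c; rw [map_add, map_add]; ring)
    (by
      intro c a b
      rw [Derivation.map_smul, Derivation.map_smul, smul_mul_assoc, smul_mul_assoc, smul_sub])
    (by intro a b c; rw [map_add, map_add]; ring)
    (by
      intro c a b
      rw [Derivation.map_smul, Derivation.map_smul, mul_smul_comm, mul_smul_comm, smul_sub])
  alt a := by
    rw [LinearMap.mk₂_apply]
    ring
  leib a b c := by
    simp only [LinearMap.mk₂_apply, Derivation.leibniz, smul_eq_mul]
    ring
  jacobi a b c := by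
    simp only [LinearMap.mk₂_apply, Derivation.leibniz, smul_eq_mul, map_sub, h]
    rw [← map_sub, LinearMap.mk₂_apply]
    simp only [Derivation.leibniz, smul_eq_mul, map_sub, h]
    ring

theorem poisson_br (D1 D2 : Derivation ℂ R R) (h : ∀ a, D2 (D1 a) = D1 (D2 a)) (a b : R) :
    (poisson D1 D2 h).br a b = D1 a * D2 b - D2 a * D1 b := rfl

end poisson

section poly

variable {R0 : Type*} [CommRing R0] [Algebra ℂ R0]

/-- coefficientwise derivation on univariate polynomials (as a function) -/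
noncomputable def cf (δ : Derivation ℂ R0 R0) (p : Polynomial R0) : Polynomial R0 :=
  ∑ n ∈ p.support, Polynomial.monomial n (δ (p.coeff n))

theorem coeff_cf (δ : Derivation ℂ R0 R0) (p : Polynomial R0) (m : ℕ) :
    (cf δ p).coeff m = δ (p.coeff m) := by
  unfold cf
  simp only [Polynomial.finsetSum_coeff, Polynomial.coeff_monomial]
  rw [Finset.sum_ite_eq' p.support m]
  split_ifs with h
  · rfl
  · rw [Polynomial.notMem_support_iff.mp h, map_zero]

/-- coefficientwise derivation on univariate polynomials -/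
noncomputable def coefD (δ : Derivation ℂ R0 R0) :
    Derivation ℂ (Polynomial R0) (Polynomial R0) :=
  Derivation.mk'
    { toFun := cf δ
      map_add' := by
        intro p q
        ext m
        rw [Polynomial.coeff_add, coeff_cf, coeff_cf, coeff_cf, Polynomial.coeff_add, map_add]
      map_smul' := by
        intro c p
        ext m
        rw [RingHom.id_apply, Polynomial.coeff_smul, coeff_cf, coeff_cf, Polynomial.coeff_smul,
          Derivation.map_smul] }
    (by
      intro p q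
      change cf δ (p * q) = p • cf δ q + q • cf δ p
      ext m
      rw [coeff_cf, Polynomial.coeff_mul, map_sum, Polynomial.coeff_add, smul_eq_mul, smul_eq_mul,
        mul_comm q, Polynomial.coeff_mul, Polynomial.coeff_mul, ← Finset.sum_add_distrib]
      apply Finset.sum_congr rfl
      intro x _
      rw [Derivation.leibniz, coeff_cf, coeff_cf, smul_eq_mul, smul_eq_mul]
      ring)

theorem coeff_coefD (δ : Derivation ℂ R0 R0) (p : Polynomial R0) (m : ℕ) :
    (coefD δ p).coeff m = δ (p.coeff m) := coeff_cf δ p m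

theorem coefD_C (δ : Derivation ℂ R0 R0) (r : R0) :
    coefD δ (Polynomial.C r) = Polynomial.C (δ r) := by
  ext m
  rw [coeff_coefD, Polynomial.coeff_C, Polynomial.coeff_C]
  split_ifs
  · rfl
  · exact map_zero δ

theorem coefD_X (δ : Derivation ℂ R0 R0) : coefD δ (Polynomial.X : Polynomial R0) = 0 := by
  ext m
  rw [coeff_coefD, Polynomial.coeff_X, Polynomial.coeff_zero]
  split_ifs
  · exact Derivation.map_one_eq_zero δ
  · exact map_zero δ

/-- the derivative as a derivation over `ℂ` -/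
noncomputable def derX : Derivation ℂ (Polynomial R0) (Polynomial R0) :=
  (Polynomial.derivative' : Derivation R0 (Polynomial R0) (Polynomial R0)).restrictScalars ℂ

theorem derX_apply (p : Polynomial R0) : derX p = Polynomial.derivative p := rfl

theorem comm_der (δ : Derivation ℂ R0 R0) (p : Polynomial R0) :
    coefD δ (derX p) = derX (coefD δ p) := by
  ext m
  rw [coeff_coefD, derX_apply, derX_apply, Polynomial.coeff_derivative,
    Polynomial.coeff_derivative, coeff_coefD, Derivation.leibniz]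
  have h : δ ((m : R0) + 1) = 0 := by
    have : ((m : R0) + 1) = algebraMap ℂ R0 ((m : ℂ) + 1) := by
      rw [map_add, map_natCast, map_one]
    rw [this, Derivation.map_algebraMap]
  rw [h, smul_zero, zero_add, smul_eq_mul, mul_comm]

/-- the bracket `f' δ(g) - δ(f) g'` -/
noncomputable def PP (δ : Derivation ℂ R0 R0) : PoissonStr (Polynomial R0) :=
  poisson derX (coefD δ) (comm_der δ)

theorem PP_br (δ : Derivation ℂ R0 R0) (a b : Polynomial R0) :
    (PP δ).br a b = derX a * coefD δ b - coefD δ a * derX b := rfl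

end poly

/-! ## the projection -/

section proj

variable {A R0 : Type} [CommRing A] [Algebra ℂ A] [CommRing R0] [Algebra ℂ R0]

/-- the projection `C a ↦ C (ρ a)`, `X 0 ↦ X`, `X n ↦ 0` -/
noncomputable def prj (ρ : A →ₐ[ℂ] R0) : MvPolynomial ℕ A →ₐ[ℂ] Polynomial R0 :=
  MvPolynomial.aevalTower ((Polynomial.CAlgHom (R := ℂ)).comp ρ)
    (fun n => if n = 0 then Polynomial.X else 0)

theorem prj_C (ρ : A →ₐ[ℂ] R0) (a : A) : prj ρ (C a) = Polynomial.C (ρ a) := by
  unfold prj
  rw [MvPolynomial.aevalTower_C]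
  rfl

theorem prj_X (ρ : A →ₐ[ℂ] R0) (n : ℕ) :
    prj ρ (X n) = if n = 0 then Polynomial.X else 0 := by
  unfold prj
  rw [MvPolynomial.aevalTower_X]

/-- linear maps commute with finite finsums -/
theorem map_S {V W : Type*} [AddCommGroup V] [AddCommGroup W] [Module ℂ V] [Module ℂ W]
    (π : V →ₗ[ℂ] W) {f : ℕ → V} (h : ∃ N, ∀ j, N ≤ j → f j = 0) :
    π (∑ᶠ j, f j) = ∑ᶠ j, π (f j) := by
  obtain ⟨N, hN⟩ := h
  rw [S_eq N hN, map_sum, S_eq N (fun j hj => by rw [hN j hj, map_zero])]

theorem rec_fin {D : DData A} (M : Model D) (a : A) (m : ℤ) (n : ℕ) (v : MvPolynomial ℕ A) :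
    ∃ N, ∀ k, N ≤ k → (Ring.choose (-(n : ℤ) - 1) k : ℤ) •
      M.W.Y (C (D.d k a)) (m - n - 1 - k) v = 0 := by
  obtain ⟨K, hK⟩ := D.fin a
  refine ⟨K, fun k hk => ?_⟩
  rw [hK k hk, C_0, map_zero]
  simp

theorem Tj_zero' (D : DData A) (a : A) : D.Tj 0 a = a := by
  unfold DData.Tj
  simp

theorem Tj_succ_range (D : DData A) (j : ℕ) (a : A) : ∃ c, D.Tj (j + 1) a = D.T c := by
  refine ⟨(((j + 1).factorial : ℂ)⁻¹) • (⇑D.T)^[j] a, ?_⟩
  unfold DData.Tj
  rw [Function.iterate_succ_apply', Derivation.map_smul]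

theorem Tj_one (D : DData A) (a : A) : D.Tj 1 a = D.T a := by
  unfold DData.Tj
  simp

section hyp

variable (ρ : A →ₐ[ℂ] R0) (δ : Derivation ℂ R0 R0) {D : DData A} (M : Model D)

theorem rho_Tj (hker : RingHom.ker ρ = Ideal.span (Set.range D.T)) (j : ℕ) (a : A) :
    ρ (D.Tj j a) = if j = 0 then ρ a else 0 := by
  rcases j with _ | j
  · rw [Tj_zero', if_pos rfl]
  · obtain ⟨c, hc⟩ := Tj_succ_range D j a
    rw [hc, if_neg (by omega)]
    have : D.T c ∈ RingHom.ker ρ := by
      rw [hker]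
      exact Ideal.subset_span ⟨c, rfl⟩
    exact this

/-- (A) -/
theorem prj_a_neg (hker : RingHom.ker ρ = Ideal.span (Set.range D.T)) (v : MvPolynomial ℕ A) :
    ∀ (a : A) (m : ℕ), prj ρ (M.W.Y (C a) (-(m : ℤ) - 1) v) =
      if m = 0 then Polynomial.C (ρ a) * prj ρ v else 0 := by
  induction v using MvPolynomial.induction_on with
  | C b =>
    intro a m
    rw [M.a_neg, prj_C, prj_C, map_mul, rho_Tj ρ hker]
    split_ifs with h
    · rw [Polynomial.C_mul]
    · rw [zero_mul, Polynomial.C_0]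
  | add p q hp hq =>
    intro a m
    rw [map_add, map_add, map_add, hp, hq]
    split_ifs
    · rw [mul_add]
    · rw [add_zero]
  | mul_X p n hp =>
    intro a m
    rw [mul_comm p (X n), M.a_rec, map_sub, map_mul, hp]
    have h1 : prj ρ (∑ᶠ k : ℕ, (Ring.choose (-(n : ℤ) - 1) k : ℤ) •
        M.W.Y (C (D.d k a)) (-(m : ℤ) - 1 - n - 1 - k) p) = 0 := by
      have h2 := map_S (prj ρ).toLinearMap (rec_fin M a (-(m : ℤ) - 1) n p)
      simp only [AlgHom.toLinearMap_apply] at h2
      rw [h2]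
      have h3 : ∀ k : ℕ, prj ρ ((Ring.choose (-(n : ℤ) - 1) k : ℤ) •
          M.W.Y (C (D.d k a)) (-(m : ℤ) - 1 - n - 1 - k) p) = 0 := by
        intro k
        rw [map_zsmul]
        have e : -(m : ℤ) - 1 - n - 1 - k = -((m + n + 1 + k : ℕ) : ℤ) - 1 := by
          push_cast; ring
        rw [e, hp, if_neg (by omega), smul_zero]
      simp only [h3, finsum_zero]
    rw [h1, sub_zero, map_mul]
    split_ifs
    · ring
    · rw [mul_zero]

/-- (B) -/
theorem prj_a_zero (hker : RingHom.ker ρ = Ideal.span (Set.range D.T))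
    (hδ : ∀ a, ρ (D.d 0 a) = δ (ρ a)) (v : MvPolynomial ℕ A) :
    ∀ (a : A), prj ρ (M.W.Y (C a) 0 v) =
      (PP δ).br (prj ρ (C a)) (prj ρ v) := by
  induction v using MvPolynomial.induction_on with
  | C b =>
    intro a
    have h := M.a_nonneg a b 0
    rw [Nat.cast_zero] at h
    rw [h, map_zero, PP_br, prj_C, prj_C, derX_apply, derX_apply, Polynomial.derivative_C,
      Polynomial.derivative_C]
    ring
  | add p q hp hq =>
    intro a
    rw [map_add, map_add, map_add, hp, hq, map_add]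
  | mul_X p n hp =>
    intro a
    rw [mul_comm p (X n), M.a_rec, map_sub, map_mul, hp]
    have h1 : prj ρ (∑ᶠ k : ℕ, (Ring.choose (-(n : ℤ) - 1) k : ℤ) •
        M.W.Y (C (D.d k a)) (0 - (n : ℤ) - 1 - k) p) =
        if n = 0 then Polynomial.C (δ (ρ a)) * prj ρ p else 0 := by
      have h2 := map_S (prj ρ).toLinearMap (rec_fin M a 0 n p)
      simp only [AlgHom.toLinearMap_apply] at h2
      rw [h2]
      have h3 : ∀ k : ℕ, prj ρ ((Ring.choose (-(n : ℤ) - 1) k : ℤ) •
          M.W.Y (C (D.d k a)) (0 - (n : ℤ) - 1 - k) p) =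
          (Ring.choose (-(n : ℤ) - 1) k : ℤ) • (if n + k = 0 then
            Polynomial.C (ρ (D.d k a)) * prj ρ p else 0) := by
        intro k
        rw [map_zsmul]
        have e : 0 - (n : ℤ) - 1 - k = -((n + k : ℕ) : ℤ) - 1 := by
          push_cast; ring
        rw [e, prj_a_neg ρ M hker]
      simp only [h3]
      rw [S_eq 1 (fun j hj => by rw [if_neg (by omega), smul_zero])]
      simp only [Finset.range_one, Finset.sum_singleton, Ring.choose_zero_right, one_smul,
        add_zero]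
      rw [hδ]
    rw [h1, map_mul, PP_br, PP_br, prj_C, derX_apply, Polynomial.derivative_C, zero_mul,
      zero_mul, Derivation.leibniz, coefD_C, prj_X]
    by_cases hn : n = 0
    · rw [if_pos hn, if_pos hn]
      have : derX (Polynomial.X : Polynomial R0) = 1 := by
        rw [derX_apply, Polynomial.derivative_X]
      rw [this, smul_eq_mul, smul_eq_mul]
      ring
    · rw [if_neg hn, if_neg hn, map_zero]
      simp

/-- (C) -/
theorem prj_b_neg (m : ℕ) (v : MvPolynomial ℕ A) :
    prj ρ (M.W.Y (X 0) (-(m : ℤ) - 1) v) =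
      if m = 0 then prj ρ (X 0) * prj ρ v else 0 := by
  rw [M.b_neg, map_mul]
  rcases m with _ | m
  · rw [if_pos rfl]
  · rw [prj_X, if_neg (by omega), if_neg (by omega), zero_mul]

theorem prj_mapDer (hδ : ∀ a, ρ (D.d 0 a) = δ (ρ a)) (v : MvPolynomial ℕ A) :
    prj ρ (mapDer (D.d 0) v) = coefD δ (prj ρ v) := by
  induction v using MvPolynomial.induction_on with
  | C b => rw [mapDer_C, prj_C, prj_C, coefD_C, hδ]
  | add p q hp hq => rw [map_add, map_add, map_add, hp, hq, map_add]
  | mul_X p n hp =>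
    rw [Derivation.leibniz, mapDer_X, map_add, smul_zero, map_zero, zero_add, smul_eq_mul,
      map_mul, hp, map_mul, Derivation.leibniz, prj_X]
    have : coefD δ (if n = 0 then (Polynomial.X : Polynomial R0) else 0) = 0 := by
      split_ifs
      · exact coefD_X δ
      · exact map_zero _
    rw [this, smul_zero, zero_add, smul_eq_mul]

theorem prj_b_zero (hδ : ∀ a, ρ (D.d 0 a) = δ (ρ a)) (v : MvPolynomial ℕ A) :
    prj ρ (M.W.Y (X 0) 0 v) = (PP δ).br (prj ρ (X 0)) (prj ρ v) := by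
  have h := M.b_nonneg 0 v
  rw [Nat.cast_zero] at h
  rw [h, prj_mapDer ρ δ hδ, PP_br, prj_X, if_pos rfl, coefD_X, derX_apply,
    Polynomial.derivative_X]
  ring


/-- the three properties -/
def Good (u : MvPolynomial ℕ A) : Prop :=
  (∀ (v : MvPolynomial ℕ A) (m : ℕ), prj ρ (M.W.Y u (-(m : ℤ) - 1) v) =
      if m = 0 then prj ρ u * prj ρ v else 0) ∧
  ∀ v, prj ρ (M.W.Y u 0 v) = (PP δ).br (prj ρ u) (prj ρ v)

theorem good_add {u w : MvPolynomial ℕ A} (hu : Good ρ δ M u) (hw : Good ρ δ M w) :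
    Good ρ δ M (u + w) := by
  constructor
  · intro v m
    rw [map_add, Pi.add_apply, LinearMap.add_apply, map_add, hu.1, hw.1, map_add]
    split_ifs
    · ring
    · rw [add_zero]
  · intro v
    rw [map_add, Pi.add_apply, LinearMap.add_apply, map_add, hu.2, hw.2, map_add, map_add,
      LinearMap.add_apply]

theorem good_C (hker : RingHom.ker ρ = Ideal.span (Set.range D.T))
    (hδ : ∀ a, ρ (D.d 0 a) = δ (ρ a)) (a : A) : Good ρ δ M (C a) := by
  constructor
  · intro v m
    rw [prj_a_neg ρ M hker, prj_C]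
  · intro v
    exact prj_a_zero ρ δ M hker hδ v a

theorem good_X0 (hδ : ∀ a, ρ (D.d 0 a) = δ (ρ a)) : Good ρ δ M (X 0) :=
  ⟨fun v m => prj_b_neg ρ M m v, fun v => prj_b_zero ρ δ M hδ v⟩

theorem assoc_apply (hAS : AssocStmt) (u w v : MvPolynomial ℕ A) (n k : ℤ) :
    M.W.Y (M.W.Y u n w) k v =
      (∑ᶠ j : ℕ, ((-1 : ℤ) ^ j * Ring.choose n j) • M.W.Y u (n - j) (M.W.Y w (k + j) v)) -
      (n.negOnePow : ℤ) • ∑ᶠ j : ℕ, ((-1 : ℤ) ^ j * Ring.choose n j) •
        M.W.Y w (k + n - j) (M.W.Y u j v) := by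
  have h := hAS _ M.W u w n
  rw [h, prodF_apply]
  unfold brA P1
  simp only [zero_add]

theorem good_mode (hAS : AssocStmt) {g u : MvPolynomial ℕ A} (hg : Good ρ δ M g)
    (hu : Good ρ δ M u) (n : ℕ) : Good ρ δ M (M.W.Y g (-(n : ℤ) - 1) u) := by
  have hb := M.W.trunc g
  have hbu := M.W.trunc u
  -- first sum
  have S1 : ∀ (k : ℤ) (v : MvPolynomial ℕ A),
      prj ρ (∑ᶠ j : ℕ, ((-1 : ℤ) ^ j * Ring.choose (-(n : ℤ) - 1) j) •
        M.W.Y g (-(n : ℤ) - 1 - j) (M.W.Y u (k + j) v)) =
      if n = 0 then prj ρ g * prj ρ (M.W.Y u k v) else 0 := by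
    intro k v
    have hfin := P1_fin (a := M.W.Y g) hbu (-(n : ℤ) - 1) 0 k v
    simp only [zero_add] at hfin
    have h2 := map_S (prj ρ).toLinearMap hfin
    simp only [AlgHom.toLinearMap_apply] at h2
    rw [h2]
    have h3 : ∀ j : ℕ, prj ρ (((-1 : ℤ) ^ j * Ring.choose (-(n : ℤ) - 1) j) •
        M.W.Y g (-(n : ℤ) - 1 - j) (M.W.Y u (k + j) v)) =
        ((-1 : ℤ) ^ j * Ring.choose (-(n : ℤ) - 1) j) •
          (if n + j = 0 then prj ρ g * prj ρ (M.W.Y u (k + j) v) else 0) := by
      intro j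
      rw [map_zsmul]
      have e : -(n : ℤ) - 1 - j = -((n + j : ℕ) : ℤ) - 1 := by push_cast; ring
      rw [e, hg.1]
    simp only [h3]
    rw [S_eq 1 (fun j hj => by rw [if_neg (by omega), smul_zero])]
    simp
  have S2 : ∀ (p : ℕ) (v : MvPolynomial ℕ A),
      prj ρ ((((-(n : ℤ) - 1).negOnePow : ℤˣ) : ℤ) •
        ∑ᶠ j : ℕ, ((-1 : ℤ) ^ j * Ring.choose (-(n : ℤ) - 1) j) •
        M.W.Y u (-(p : ℤ) + (-(n : ℤ) - 1) - j) (M.W.Y g j v)) =
      if n + p = 0 then - (prj ρ u * prj ρ (M.W.Y g 0 v)) else 0 := by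
    intro p v
    rw [map_zsmul]
    have hfin := P1_fin (a := M.W.Y u) hb (-(n : ℤ) - 1) (-(p : ℤ)) 0 v
    simp only [zero_add] at hfin
    have h2 := map_S (prj ρ).toLinearMap hfin
    simp only [AlgHom.toLinearMap_apply] at h2
    rw [h2]
    have h3 : ∀ j : ℕ, prj ρ (((-1 : ℤ) ^ j * Ring.choose (-(n : ℤ) - 1) j) •
        M.W.Y u (-(p : ℤ) + (-(n : ℤ) - 1) - j) (M.W.Y g j v)) =
        ((-1 : ℤ) ^ j * Ring.choose (-(n : ℤ) - 1) j) •
          (if p + n + j = 0 then prj ρ u * prj ρ (M.W.Y g j v) else 0) := by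
      intro j
      rw [map_zsmul]
      have e : -(p : ℤ) + (-(n : ℤ) - 1) - j = -((p + n + j : ℕ) : ℤ) - 1 := by
        push_cast; ring
      rw [e, hu.1]
    simp only [h3]
    rw [S_eq 1 (fun j hj => by rw [if_neg (by omega), smul_zero])]
    simp only [Finset.range_one, Finset.sum_singleton, pow_zero, Ring.choose_zero_right, mul_one,
      one_smul, add_zero, Nat.cast_zero]
    by_cases h : p + n = 0
    · have hn : n = 0 := by omega
      rw [if_pos h, if_pos (by omega), hn]
      simp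
    · rw [if_neg h, if_neg (by omega), smul_zero]
  constructor
  · intro v m
    rw [assoc_apply M hAS, map_sub, S1]
    have e : (-(m : ℤ) - 1 + (-(n : ℤ) - 1)) = -((m + 1 : ℕ) : ℤ) + (-(n : ℤ) - 1) := by
      push_cast; ring
    have hne : ¬ (n + (m + 1) = 0) := by omega
    rw [e, S2, if_neg hne, sub_zero, hu.1]
    have h4 := hg.1 u n
    rw [h4]
    by_cases hn : n = 0
    · rw [if_pos hn, if_pos hn]
      split_ifs
      · ring
      · rw [mul_zero]
    · rw [if_neg hn, if_neg hn, zero_mul]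
      split_ifs <;> rfl
  · intro v
    rw [assoc_apply M hAS, map_sub, S1]
    have e : ((0 : ℤ) + (-(n : ℤ) - 1)) = -((0 : ℕ) : ℤ) + (-(n : ℤ) - 1) := by
      push_cast; ring
    rw [e, S2, hu.2, hg.2, hg.1 u n]
    by_cases hn : n = 0
    · rw [if_pos hn, if_pos (by omega), if_pos hn]
      simp only [PP_br, Derivation.leibniz, smul_eq_mul]
      ring
    · rw [if_neg hn, if_neg (by omega), if_neg hn, map_zero, LinearMap.zero_apply, sub_zero]

theorem good_all (hAS : AssocStmt) (hker : RingHom.ker ρ = Ideal.span (Set.range D.T))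
    (hδ : ∀ a, ρ (D.d 0 a) = δ (ρ a)) (u : MvPolynomial ℕ A) : Good ρ δ M u := by
  induction u using MvPolynomial.induction_on with
  | C b => exact good_C ρ δ M hker hδ b
  | add p q hp hq => exact good_add ρ δ M hp hq
  | mul_X p n hp =>
    have h := good_mode ρ δ M hAS (good_X0 ρ δ M hδ) hp n
    rw [M.b_neg, mul_comm] at h
    exact h

/-! ## the kernel -/

theorem C2_X (hAS : AssocStmt) (n : ℕ) (v : MvPolynomial ℕ A) :
    X (n + 1) * v ∈ M.W.C2 := by
  have h : M.W.Y (X n) (-2) v = ((n : ℂ) + 1) • (X (n + 1) * v) := by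
    have h1 : (X n : MvPolynomial ℕ A) = M.W.Y (X 0) (-(n : ℤ) - 1) 1 := by
      rw [M.b_neg, mul_one]
    rw [h1, assoc_apply M hAS]
    have hY1 : ∀ (k : ℤ) w, M.W.Y 1 k w = if k = -1 then w else 0 := by
      intro k w
      have := M.W.vac_mode k w
      rwa [M.vac] at this
    have e1 : ∑ᶠ j : ℕ, ((-1 : ℤ) ^ j * Ring.choose (-(n : ℤ) - 1) j) •
        M.W.Y (X 0) (-(n : ℤ) - 1 - j) (M.W.Y 1 (-2 + j) v) =
        ((n : ℂ) + 1) • (X (n + 1) * v) := by
      rw [S_eq 2 (fun j hj => by rw [hY1, if_neg (by omega), map_zero, smul_zero])]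
      rw [Finset.sum_range_succ, Finset.sum_range_one, hY1, hY1, if_neg (by norm_num),
        if_pos (by norm_num), map_zero, smul_zero, zero_add, Ring.choose_one_right, pow_one]
      have e : -(n : ℤ) - 1 - ((1 : ℕ) : ℤ) = -((n + 1 : ℕ) : ℤ) - 1 := by push_cast; ring
      rw [e, M.b_neg]
      have e' : (-1 * (-(n : ℤ) - 1)) = ((n + 1 : ℕ) : ℤ) := by push_cast; ring
      rw [e', natCast_zsmul]
      have e'' : ((n : ℂ) + 1) = ((n + 1 : ℕ) : ℂ) := by push_cast; ring
      rw [e'', Nat.cast_smul_eq_nsmul]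
    have e2 : ∑ᶠ j : ℕ, ((-1 : ℤ) ^ j * Ring.choose (-(n : ℤ) - 1) j) •
        M.W.Y 1 (-2 + (-(n : ℤ) - 1) - j) (M.W.Y (X 0) j v) = 0 := by
      have : ∀ j : ℕ, ((-1 : ℤ) ^ j * Ring.choose (-(n : ℤ) - 1) j) •
        M.W.Y 1 (-2 + (-(n : ℤ) - 1) - j) (M.W.Y (X 0) j v) = 0 := by
        intro j
        rw [hY1, if_neg (by omega), smul_zero]
      simp only [this, finsum_zero]
    rw [e1, e2, smul_zero, sub_zero]
  have h2 : X (n + 1) * v = ((n : ℂ) + 1)⁻¹ • M.W.Y (X n) (-2) v := by
    rw [h, smul_smul, inv_mul_cancel₀ (Nat.cast_add_one_ne_zero n), one_smul]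
  rw [h2]
  exact Submodule.smul_mem _ _ (Submodule.subset_span ⟨_, _, rfl⟩)

/-- span of the `T c * X_0^l` with `l < i` -/
noncomputable def FF (D : DData A) (i : ℕ) : Submodule ℂ (MvPolynomial ℕ A) :=
  Submodule.span ℂ {w | ∃ (c : A) (l : ℕ), l < i ∧ w = C (D.T c) * X 0 ^ l}

theorem FF_mem (D : DData A) {i : ℕ} (c : A) {l : ℕ} (h : l < i) :
    C (D.T c) * X 0 ^ l ∈ FF D i := Submodule.subset_span ⟨c, l, h, rfl⟩

theorem FF_mono (D : DData A) {i j : ℕ} (h : i ≤ j) : FF D i ≤ FF D j := by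
  apply Submodule.span_mono
  rintro w ⟨c, l, hl, rfl⟩
  exact ⟨c, l, by omega, rfl⟩

theorem FF_X (D : DData A) {i : ℕ} {w : MvPolynomial ℕ A} (hw : w ∈ FF D i) :
    X 0 * w ∈ FF D (i + 1) := by
  unfold FF at hw
  induction hw using Submodule.span_induction with
  | mem w hw =>
    obtain ⟨c, l, hl, rfl⟩ := hw
    have e : X 0 * (C (D.T c) * X 0 ^ l) = C (D.T c) * (X 0 : MvPolynomial ℕ A) ^ (l + 1) := by
      rw [pow_succ]; ring
    rw [e]
    exact FF_mem D c (by omega)
  | zero => rw [mul_zero]; exact Submodule.zero_mem _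
  | add x y _ _ hx hy => rw [mul_add]; exact Submodule.add_mem _ hx hy
  | smul c x _ hx => rw [mul_smul_comm]; exact Submodule.smul_mem _ _ hx

theorem Y_pow (i : ℕ) : ∀ (a : A) (p : ℕ),
    M.W.Y (C a) (-(p : ℤ) - 1) (X 0 ^ i) - C (D.Tj p a) * X 0 ^ i ∈ FF D i := by
  induction i with
  | zero =>
    intro a p
    have h := M.a_neg a 1 p
    rw [C_1, mul_one] at h
    rw [pow_zero, h, mul_one, sub_self]
    exact Submodule.zero_mem _
  | succ i ih =>
    intro a p
    have e : (X 0 : MvPolynomial ℕ A) ^ (i + 1) = X 0 * X 0 ^ i := by rw [pow_succ]; ring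
    rw [e, M.a_rec]
    have h1 : ∑ᶠ k : ℕ, (Ring.choose (-((0 : ℕ) : ℤ) - 1) k : ℤ) •
        M.W.Y (C (D.d k a)) (-(p : ℤ) - 1 - ((0 : ℕ) : ℤ) - 1 - k) (X 0 ^ i) ∈ FF D (i + 1) := by
      obtain ⟨K, hK⟩ := rec_fin M a (-(p : ℤ) - 1) 0 (X 0 ^ i)
      rw [S_eq K hK]
      apply Submodule.sum_mem
      intro k _
      rw [← Int.cast_smul_eq_zsmul ℂ]
      apply Submodule.smul_mem
      have e : -(p : ℤ) - 1 - ((0 : ℕ) : ℤ) - 1 - k = -((p + 1 + k : ℕ) : ℤ) - 1 := by
        push_cast; ring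
      rw [e]
      have h2 := ih (D.d k a) (p + 1 + k)
      obtain ⟨c, hc⟩ := Tj_succ_range D (p + k) (D.d k a)
      have e3 : p + 1 + k = p + k + 1 := by ring
      rw [e3, hc] at h2
      have h3 := Submodule.add_mem _ (FF_mono D (Nat.le_succ i) h2)
        (FF_mem D c (Nat.lt_succ_self i))
      rw [sub_add_cancel] at h3
      rw [e3]
      exact h3
    have h4 := FF_X D (ih a p)
    have h5 := Submodule.sub_mem _ h4 h1
    have e6 : X 0 * (M.W.Y (C a) (-(p : ℤ) - 1) (X 0 ^ i) - C (D.Tj p a) * X 0 ^ i) -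
        ∑ᶠ k : ℕ, (Ring.choose (-((0 : ℕ) : ℤ) - 1) k : ℤ) •
        M.W.Y (C (D.d k a)) (-(p : ℤ) - 1 - ((0 : ℕ) : ℤ) - 1 - k) (X 0 ^ i) =
        X 0 * M.W.Y (C a) (-(p : ℤ) - 1) (X 0 ^ i) -
        ∑ᶠ k : ℕ, (Ring.choose (-((0 : ℕ) : ℤ) - 1) k : ℤ) •
        M.W.Y (C (D.d k a)) (-(p : ℤ) - 1 - ((0 : ℕ) : ℤ) - 1 - k) (X 0 ^ i) -
        C (D.Tj p a) * (X 0 * X 0 ^ i) := by
      ring
    rw [e6] at h5
    exact h5

theorem C2_T (i : ℕ) : ∀ (b a : A), C (b * D.T a) * X 0 ^ i ∈ M.W.C2 := by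
  induction i using Nat.strong_induction_on with
  | _ i ih =>
    intro b a
    have h1 := Y_pow M i a 1
    rw [Tj_one] at h1
    have h2 : ∀ w ∈ FF D i, C b * w ∈ M.W.C2 := by
      intro w hw
      unfold FF at hw
      induction hw using Submodule.span_induction with
      | mem w hw =>
        obtain ⟨c, l, hl, rfl⟩ := hw
        have e : C b * (C (D.T c) * X 0 ^ l) =
            C (b * D.T c) * (X 0 : MvPolynomial ℕ A) ^ l := by
          rw [C_mul]; ring
        rw [e]
        exact ih l hl b c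
      | zero => rw [mul_zero]; exact Submodule.zero_mem _
      | add x y _ _ hx hy => rw [mul_add]; exact Submodule.add_mem _ hx hy
      | smul c x _ hx => rw [mul_smul_comm]; exact Submodule.smul_mem _ _ hx
    have h3 := h2 _ h1
    have h4 : M.W.Y (C a) (-2) (C b * X 0 ^ i) ∈ M.W.C2 :=
      Submodule.subset_span ⟨_, _, rfl⟩
    rw [M.a_lin] at h4
    have h5 := Submodule.sub_mem _ h4 h3
    have e : (-((1 : ℕ) : ℤ) - 1) = -2 := by norm_num
    rw [e] at h5
    have e6 : C b * M.W.Y (C a) (-2) (X 0 ^ i) -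
        C b * (M.W.Y (C a) (-2) (X 0 ^ i) - C (D.T a) * X 0 ^ i) =
        C (b * D.T a) * X 0 ^ i := by
      rw [C_mul]; ring
    rw [e6] at h5
    exact h5

/-- the ideal generated by the `X (n+1)` -/
noncomputable def K1 (A : Type) [CommRing A] : Ideal (MvPolynomial ℕ A) :=
  Ideal.span (Set.range fun n : ℕ => (X (n + 1) : MvPolynomial ℕ A))

theorem K1_le (hAS : AssocStmt) {w : MvPolynomial ℕ A} (hw : w ∈ K1 A) : w ∈ M.W.C2 := by
  have key : ∀ r : MvPolynomial ℕ A, r * w ∈ M.W.C2 := by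
    unfold K1 Ideal.span at hw
    induction hw using Submodule.span_induction with
    | mem w hw =>
      obtain ⟨n, rfl⟩ := hw
      intro r
      rw [mul_comm]
      exact C2_X M hAS n r
    | zero => intro r; rw [mul_zero]; exact Submodule.zero_mem _
    | add x y _ _ hx hy => intro r; rw [mul_add]; exact Submodule.add_mem _ (hx r) (hy r)
    | smul c x _ hx => intro r; rw [smul_eq_mul, ← mul_assoc]; exact hx _
  have := key 1
  rwa [one_mul] at this

/-- the inclusion of the polynomials in `X 0` -/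
noncomputable def iot (A : Type) [CommRing A] : Polynomial A →+* MvPolynomial ℕ A :=
  Polynomial.eval₂RingHom C (X 0)

omit [Algebra ℂ A] in
theorem decomp (v : MvPolynomial ℕ A) : ∃ f : Polynomial A, v - iot A f ∈ K1 A := by
  induction v using MvPolynomial.induction_on with
  | C b =>
    refine ⟨Polynomial.C b, ?_⟩
    unfold iot
    rw [Polynomial.coe_eval₂RingHom, Polynomial.eval₂_C, sub_self]
    exact Ideal.zero_mem _
  | add p q hp hq =>
    obtain ⟨f, hf⟩ := hp
    obtain ⟨g, hg⟩ := hq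
    refine ⟨f + g, ?_⟩
    have := Ideal.add_mem _ hf hg
    have e : p - iot A f + (q - iot A g) = p + q - iot A (f + g) := by
      rw [map_add]; ring
    rwa [e] at this
  | mul_X p n hp =>
    rcases n with _ | n
    · obtain ⟨f, hf⟩ := hp
      refine ⟨f * Polynomial.X, ?_⟩
      have e : p * X 0 - iot A (f * Polynomial.X) = (X 0) * (p - iot A f) := by
        rw [map_mul]
        have : iot A Polynomial.X = X 0 := by
          unfold iot
          rw [Polynomial.coe_eval₂RingHom, Polynomial.eval₂_X]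
        rw [this]; ring
      rw [e]
      exact Ideal.mul_mem_left _ _ hf
    · refine ⟨0, ?_⟩
      rw [map_zero, sub_zero]
      exact Ideal.mul_mem_left _ _ (Ideal.subset_span ⟨n, rfl⟩)

theorem prj_iot (f : Polynomial A) : prj ρ (iot A f) = f.map (ρ : A →+* R0) := by
  induction f using Polynomial.induction_on' with
  | add p q hp hq => rw [map_add, map_add, hp, hq, Polynomial.map_add]
  | monomial n a =>
    unfold iot
    rw [Polynomial.coe_eval₂RingHom, Polynomial.eval₂_monomial, map_mul, map_pow, prj_C, prj_X,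
      if_pos rfl, Polynomial.map_monomial, Polynomial.C_mul_X_pow_eq_monomial]
    rfl

omit [Algebra ℂ A] in
theorem iot_sum (f : Polynomial A) :
    iot A f = ∑ n ∈ f.support, C (f.coeff n) * X 0 ^ n := by
  unfold iot
  rw [Polynomial.coe_eval₂RingHom, Polynomial.eval₂_eq_sum]
  rfl

theorem ker_le (hAS : AssocStmt) (hker : RingHom.ker ρ = Ideal.span (Set.range D.T))
    (hδ : ∀ a, ρ (D.d 0 a) = δ (ρ a)) (v : MvPolynomial ℕ A) (hv : prj ρ v = 0) :
    v ∈ M.W.C2 := by
  obtain ⟨f, hf⟩ := decomp v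
  have h1 : v - iot A f ∈ M.W.C2 := K1_le M hAS hf
  have h2 : ∀ w ∈ M.W.C2, prj ρ w = 0 := by
    intro w hw
    unfold VertexAlgebra.C2 at hw
    induction hw using Submodule.span_induction with
    | mem w hw =>
      obtain ⟨a, b, rfl⟩ := hw
      have h3 := (good_all ρ δ M hAS hker hδ a).1 b 1
      rw [if_neg (by norm_num)] at h3
      have e : (-((1 : ℕ) : ℤ) - 1) = -2 := by norm_num
      rwa [e] at h3
    | zero => exact map_zero _
    | add x y _ _ hx hy => rw [map_add, hx, hy, add_zero]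
    | smul c x _ hx => rw [map_smul, hx, smul_zero]
  have h3 := h2 _ h1
  rw [map_sub, hv, zero_sub, neg_eq_zero, prj_iot] at h3
  have h4 : ∀ n, f.coeff n ∈ Ideal.span (Set.range D.T) := by
    intro n
    rw [← hker, RingHom.mem_ker]
    have := congrArg (fun g => Polynomial.coeff g n) h3
    simp only [Polynomial.coeff_map, Polynomial.coeff_zero] at this
    exact this
  have h5 : ∀ (n : ℕ), ∀ c ∈ Ideal.span (Set.range D.T), ∀ r : A,
      C (r * c) * X 0 ^ n ∈ M.W.C2 := by
    intro n c hc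
    unfold Ideal.span at hc
    induction hc using Submodule.span_induction with
    | mem w hw =>
      obtain ⟨a, rfl⟩ := hw
      intro r
      exact C2_T M n r a
    | zero =>
      intro r
      rw [mul_zero, C_0, zero_mul]
      exact Submodule.zero_mem _
    | add x y _ _ hx hy =>
      intro r
      rw [mul_add, C_add, add_mul]
      exact Submodule.add_mem _ (hx r) (hy r)
    | smul c x _ hx =>
      intro r
      rw [smul_eq_mul, ← mul_assoc]
      exact hx _
  have h6 : iot A f ∈ M.W.C2 := by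
    rw [iot_sum]
    apply Submodule.sum_mem
    intro n _
    have := h5 n _ (h4 n) 1
    rwa [one_mul] at this
  have h7 := Submodule.add_mem _ h1 h6
  rwa [sub_add_cancel] at h7

theorem C2_le (hAS : AssocStmt) (hker : RingHom.ker ρ = Ideal.span (Set.range D.T))
    (hδ : ∀ a, ρ (D.d 0 a) = δ (ρ a)) (v : MvPolynomial ℕ A) (hv : v ∈ M.W.C2) :
    prj ρ v = 0 := by
  unfold VertexAlgebra.C2 at hv
  induction hv using Submodule.span_induction with
  | mem w hw =>
    obtain ⟨a, b, rfl⟩ := hw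
    have h3 := (good_all ρ δ M hAS hker hδ a).1 b 1
    rw [if_neg (by norm_num)] at h3
    have e : (-((1 : ℕ) : ℤ) - 1) = -2 := by norm_num
    rwa [e] at h3
  | zero => exact map_zero _
  | add x y _ _ hx hy => rw [map_add, hx, hy, add_zero]
  | smul c x _ hx => rw [map_smul, hx, smul_zero]

theorem prj_surj (hs : Function.Surjective ρ) : Function.Surjective (prj ρ) := by
  intro f
  induction f using Polynomial.induction_on' with
  | add p q hp hq =>
    obtain ⟨a, rfl⟩ := hp
    obtain ⟨b, rfl⟩ := hq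
    exact ⟨a + b, map_add _ _ _⟩
  | monomial n r =>
    obtain ⟨a, rfl⟩ := hs r
    refine ⟨C a * X 0 ^ n, ?_⟩
    rw [map_mul, map_pow, prj_C, prj_X, if_pos rfl, Polynomial.C_mul_X_pow_eq_monomial]

end hyp

end proj

theorem c2 : C2Stmt := by
  intro hAS A _ _ D M R0 _ _ ρ δ hs hker hδ
  refine ⟨PP δ, (prj ρ).toLinearMap, ?_, ?_, ?_⟩
  · refine ⟨?_, ?_, ?_, ?_, ?_⟩
    · exact prj_surj ρ hs
    · ext v
      rw [LinearMap.mem_ker, AlgHom.toLinearMap_apply]
      exact ⟨fun h => ker_le ρ δ M hAS hker hδ v h, fun h => C2_le ρ δ M hAS hker hδ v h⟩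
    · rw [M.vac, AlgHom.toLinearMap_apply, map_one]
    · intro a b
      have h := (good_all ρ δ M hAS hker hδ a).1 b 0
      rw [if_pos rfl] at h
      have e : (-((0 : ℕ) : ℤ) - 1) = -1 := by norm_num
      rw [e] at h
      exact h
    · intro a b
      exact (good_all ρ δ M hAS hker hδ a).2 b
  · intro r
    rw [PP_br, derX_apply, derX_apply, Polynomial.derivative_X, Polynomial.derivative_C,
      coefD_C, one_mul, mul_zero, sub_zero]
  · intro r s
    rw [PP_br, derX_apply, derX_apply, Polynomial.derivative_C, Polynomial.derivative_C,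
      zero_mul, mul_zero, sub_zero]

end Pool.Agent.H39.VA
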