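import Pool.Agent.H16.VA.Targets

/-!
# Simplicity of a model (module SI)
-/

set_option autoImplicit false

open Finset MvPolynomial

namespace Pool.Agent.H39.VA

open Pool.Agent.H16.VA

section

variable {A : Type} [CommRing A] [Algebra ℂ A]

theorem Tj_zero (D : DData A) (a : A) : D.Tj 0 a = a := by
  unfold DData.Tj
  simp

theorem Y_one {D : DData A} (M : Model D) (m : ℤ) (v : MvPolynomial ℕ A) :
    M.W.Y (C 1) m v = if m = -1 then v else 0 := by
  have h := M.W.vac_mode m v
  rw [M.vac] at h
  rw [C_1]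
  exact h

theorem Y_x {D : DData A} (M : Model D) {x : A} (hx : ∀ k, D.d k x = if k = 0 then 1 else 0)
    (m : ℕ) (v : MvPolynomial ℕ A) : M.W.Y (C x) (m : ℤ) v = - pderiv m v := by
  induction v using MvPolynomial.induction_on with
  | C b =>
    rw [M.a_nonneg, pderiv_C, neg_zero]
  | add p q hp hq =>
    rw [map_add, hp, hq, map_add, neg_add]
  | mul_X p n hp =>
    rw [mul_comm p (X n), M.a_rec, hp]
    have h1 : ∀ k : ℕ, 1 ≤ k → (Ring.choose (-(n : ℤ) - 1) k : ℤ) •
        M.W.Y (C (D.d k x)) ((m : ℤ) - n - 1 - k) p = 0 := by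
      intro k hk
      rw [hx k, if_neg (by omega), C_0, map_zero]
      simp
    rw [S_eq 1 h1]
    simp only [Finset.range_one, Finset.sum_singleton, Ring.choose_zero_right, one_smul]
    rw [hx 0, if_pos rfl, Y_one, pderiv_mul]
    by_cases hmn : m = n
    · subst hmn
      rw [if_pos (by push_cast; ring), pderiv_X_self]
      ring
    · rw [if_neg (by push_cast; omega), pderiv_X_of_ne (Ne.symm hmn)]
      ring

theorem exists_const {I : Submodule ℂ (MvPolynomial ℕ A)}
    (hI : ∀ i : ℕ, ∀ v ∈ I, pderiv i v ∈ I) (N : ℕ) :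
    ∀ v ∈ I, v ≠ 0 → v.totalDegree ≤ N → ∃ a : A, a ≠ 0 ∧ C a ∈ I := by
  induction N with
  | zero =>
    intro v hv h0 hd
    have h1 : v.totalDegree = 0 := by omega
    rw [totalDegree_eq_zero_iff_eq_C] at h1
    refine ⟨coeff 0 v, ?_, h1 ▸ hv⟩
    intro h2
    rw [h2, C_0] at h1
    exact h0 h1
  | succ N ih =>
    intro v hv h0 hd
    by_cases hN : v.totalDegree ≤ N
    · exact ih v hv h0 hN
    have hN1 : v.totalDegree = N + 1 := by omega
    obtain ⟨s, hs, hsd⟩ : ∃ s ∈ v.support, (s.sum fun _ e => e) = v.totalDegree := by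
      have hne : v.support.Nonempty := by
        rw [MvPolynomial.support_nonempty]
        exact h0
      obtain ⟨s, hs, h⟩ := Finset.exists_mem_eq_sup v.support hne (fun s => s.sum fun _ e => e)
      exact ⟨s, hs, h.symm⟩
    have hs1 : s ≠ 0 := by
      intro h
      rw [h, Finsupp.sum_zero_index] at hsd
      omega
    obtain ⟨i, hi⟩ := Finsupp.ne_iff.mp hs1
    rw [Finsupp.coe_zero, Pi.zero_apply] at hi
    have hle : Finsupp.single i 1 ≤ s := by
      rw [Finsupp.single_le_iff]
      omega
    have hc : coeff (s - Finsupp.single i 1) (pderiv i v) ≠ 0 := by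
      rw [coeff_pderiv, tsub_add_cancel_of_le hle]
      generalize (s - Finsupp.single i 1 : ℕ →₀ ℕ) i = q
      intro h
      have h2 : coeff s v * ((q : A) + 1) = ((q + 1 : ℕ) : ℂ) • coeff s v := by
        rw [Algebra.smul_def, map_natCast]
        push_cast
        ring
      rw [h2] at h
      have h3 : ((q + 1 : ℕ) : ℂ) ≠ 0 := Nat.cast_ne_zero.mpr (Nat.succ_ne_zero _)
      have h4 : coeff s v = 0 := by
        have := congrArg (fun z => ((q + 1 : ℕ) : ℂ)⁻¹ • z) h
        simpa only [smul_smul, inv_mul_cancel₀ h3, one_smul, smul_zero] using this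
      exact (mem_support_iff.mp hs) h4
    apply ih (pderiv i v) (hI i v hv)
    · intro h
      rw [h, coeff_zero] at hc
      exact hc rfl
    · unfold totalDegree
      apply Finset.sup_le
      intro t ht
      rw [mem_support_iff, coeff_pderiv] at ht
      have h1 : coeff (t + Finsupp.single i 1) v ≠ 0 := by
        intro h
        rw [h, zero_mul] at ht
        exact ht rfl
      have h2 := le_totalDegree (mem_support_iff.mpr h1)
      rw [Finsupp.sum_add_index' (fun _ => rfl) (fun _ _ _ => rfl),
        Finsupp.sum_single_index rfl] at h2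
      omega

end

theorem si : SimpleStmt := by
  intro A _ _ D M hA hx hJ
  obtain ⟨x, hx⟩ := hx
  refine ⟨inferInstance, ?_⟩
  intro I hI
  by_cases hbot : I = ⊥
  · exact Or.inl hbot
  right
  obtain ⟨v, hv, hv0⟩ := (Submodule.ne_bot_iff I).mp hbot
  have hpd : ∀ i : ℕ, ∀ w ∈ I, pderiv i w ∈ I := by
    intro i w hw
    have h := hI.2.1 (C x) (i : ℤ) w hw
    rw [Y_x M hx] at h
    have h2 := I.neg_mem h
    rwa [neg_neg] at h2
  obtain ⟨a, ha, haI⟩ := exists_const hpd v.totalDegree v hv hv0 le_rfl
  let J : Ideal A :=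
    { carrier := {b | C b ∈ I}
      add_mem' := by
        intro b c hb hc
        change C _ ∈ I at hb hc ⊢
        rw [C_add]
        exact I.add_mem hb hc
      zero_mem' := by
        change C _ ∈ I
        rw [C_0]
        exact I.zero_mem
      smul_mem' := by
        intro b c hc
        change C _ ∈ I at hc ⊢
        have h := hI.2.1 (C b) (-((0 : ℕ) : ℤ) - 1) _ hc
        rw [M.a_neg, Tj_zero] at h
        exact h }
  have hJd : ∀ k, ∀ b ∈ J, D.d k b ∈ J := by
    intro k b hb
    have h := hI.2.1 (X 0) (k : ℤ) _ hb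
    rw [M.b_nonneg, mapDer_C] at h
    exact h
  have hJt : J = ⊤ := by
    rcases hJ J hJd with h | h
    · exfalso
      have : a ∈ J := haI
      rw [h] at this
      exact ha this
    · exact h
  have h1 : (1 : A) ∈ J := by rw [hJt]; trivial
  have h1' : (1 : MvPolynomial ℕ A) ∈ I := by
    have : C (1 : A) ∈ I := h1
    rwa [C_1] at this
  rw [eq_top_iff]
  intro u _
  have h2 := hI.2.1 u (-1) _ h1'
  rw [← M.vac, M.W.creat] at h2
  exact h2

end Pool.Agent.H39.VA
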